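import Pool.Agent.helper65.GD.SpecF

set_option autoImplicit false

/-! # Goodman's inequality for polynomials of close-to-convex functions: the last step -/

namespace Pool.Agent.GD

open Finset Metric Filter Topology

/-- `φ` is close-to-convex (not normalised): `Re (c z φ'(z)/g(z)) > 0` for a starlike `g` and a constant `c`. -/
structure Ctc (φ : ℂ → ℂ) : Prop where
  analytic : DifferentiableOn ℂ φ (ball 0 1)
  ctc : ∃ (g : ℂ → ℂ) (c : ℂ), Starl g ∧ ∀ z ∈ ball (0 : ℂ) 1, z ≠ 0 → 0 < (c * (z * deriv φ z / g z)).re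

/-- Multiples. -/
theorem inv_smul' (p : ℕ) (h : ℂ → ℂ) (a : ℂ) (hh : Inv p h) : Inv p (fun z => a * h z) := by
  obtain ⟨hd, Φ, c, hG, hc⟩ := hh
  have hd' : DifferentiableOn ℂ (fun z => a * h z) (ball 0 1) := hd.const_mul a
  refine ⟨hd', Φ, fun m => a * c m, hG, fun n hn => ?_⟩
  rw [congrFun (CO2 _ _ _ (CO1 _ hd') (ITE_ser_mul a _ _ (CO1 _ hd))) n, hc n hn]
  unfold cmb
  rw [Finset.mul_sum]
  exact Finset.sum_congr rfl fun m _ => by ring

/-- The step `f' = φ' h`, `φ` close-to-convex. -/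
theorem fin_int (h1 : XS0_stmt) (h2 : XST_stmt) (p : ℕ) (φ f h : ℂ → ℂ) (hφ : Ctc φ) (hh : Inv p h)
    (hf : DifferentiableOn ℂ f (ball 0 1)) (he : ∀ z ∈ ball (0 : ℂ) 1, deriv f z = deriv φ z * h z) :
    Inv (p + 1) f := by
  obtain ⟨hφa, g, c, hg, hpos⟩ := hφ
  obtain ⟨Q, hQ, hQpos, hQe⟩ := h1 g φ c hg hφa hpos
  have hc : c ≠ 0 := by
    intro h0
    have hz : ((1 / 2 : ℂ)) ∈ ball (0 : ℂ) 1 := by
      rw [mem_ball_zero_iff]
      norm_num
    have h3 := hpos (1 / 2) hz (by norm_num)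
    rw [h0] at h3
    simp at h3
  refine h2 p g (fun z => c⁻¹ * h z) f Q hg (inv_smul' p h c⁻¹ hh) hf hQ hQpos ?_
  intro z hz
  have e := hQe z hz
  rw [he z hz]
  calc z * (deriv φ z * h z) = c⁻¹ * (c * (z * deriv φ z)) * h z := by
        field_simp
    _ = c⁻¹ * (Q z * g z) * h z := by rw [e]
    _ = Q z * (g z * (c⁻¹ * h z)) := by ring

/-- Polynomials of a close-to-convex function. -/
theorem fin_poly (h1 : XS0_stmt) (h2 : XST_stmt) (φ : ℂ → ℂ) (hφ : Ctc φ) (p : ℕ) :
    ∀ P : Polynomial ℂ, P.natDegree ≤ p → Inv p (fun z => P.eval (φ z)) := by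
  have hopen : IsOpen (ball (0 : ℂ) 1) := isOpen_ball
  induction p with
  | zero =>
    intro P hP
    rw [Polynomial.eq_C_of_natDegree_le_zero hP]
    simp only [Polynomial.eval_C]
    exact inv_const _
  | succ p ih =>
    intro P hP
    have hd : (Polynomial.derivative P).natDegree ≤ p :=
      (Polynomial.natDegree_derivative_le P).trans (by omega)
    refine fin_int h1 h2 p φ _ _ hφ (ih _ hd) ?_ ?_
    · intro z hz
      exact (P.differentiable.differentiableAt.comp_differentiableWithinAt z (hφ.analytic z hz))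
    · intro z hz
      have hz1 : HasDerivAt φ (deriv φ z) z :=
        ((hφ.analytic z hz).differentiableAt (hopen.mem_nhds hz)).hasDerivAt
      have hz2 : HasDerivAt (fun z => P.eval (φ z)) ((Polynomial.derivative P).eval (φ z) * deriv φ z) z :=
        (P.hasDerivAt (φ z)).comp z hz1
      rw [hz2.deriv, mul_comm]

end Pool.Agent.GD
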