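import Pool.Agent.helper65.GD.SpecF

set_option autoImplicit false

namespace Pool.Agent.GD

open Finset

theorem XM1 : XM1_stmt := by
  intro p Q Φ hQ hR hlow hdiag hV c b hb n hn
  have hLIN : LIN_stmt := LIN
  have hSTE : STE_stmt := ste_holds
  -- the special solutions
  have key : ∀ j, 1 ≤ j → j ≤ p → ∃ cj bj : ℕ → ℂ, (∀ m : ℕ, (m : ℂ) * bj m = cv Q (cmb p Φ cj) m) ∧
      (∀ r, 1 ≤ r → r ≤ p → bj r = if r = j then 1 else 0) ∧ ∀ m, p < m → ‖bj m‖ ≤ AA p m j := by
    intro j hj hjp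
    obtain ⟨t, ht⟩ := CCV_rec (fun r => (r : ℂ) * (if r = j then 1 else 0)) Q
    obtain ⟨cj, hcj⟩ := (hLIN p Φ hlow hdiag).1 t
    have ht0 : t 0 = 0 := by
      rw [ht 0]
      simp
    have hF0 : cmb p Φ cj 0 = 0 := CCV_zero p Φ hlow cj
    have hFt : ∀ r, r ≤ p → cmb p Φ cj r = t r := by
      intro r hr
      rcases Nat.eq_zero_or_pos r with h | h
      · rw [h, hF0, ht0]
      · exact hcj r (by rw [mem_Icc]; omega)
    have hcv : ∀ r, r ≤ p → cv Q (cmb p Φ cj) r = r * (if r = j then 1 else 0) := by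
      intro r hr
      rw [CCV_cv_succ Q _ hQ r, hFt r hr, ht r]
      rw [Finset.sum_congr rfl (fun m hm => by rw [hFt m (by have := mem_range.1 hm; omega)])]
      ring
    have hbj : ∀ m : ℕ, (m : ℂ) * (cv Q (cmb p Φ cj) m / m) = cv Q (cmb p Φ cj) m := by
      intro m
      rcases Nat.eq_zero_or_pos m with h | h
      · subst h
        rw [hcv 0 (Nat.zero_le _)]
        simp
      · have : (m : ℂ) ≠ 0 := by
          exact_mod_cast h.ne'
        field_simp
    have hbr : ∀ r : ℕ, 1 ≤ r → r ≤ p → (fun m : ℕ => cv Q (cmb p Φ cj) m / m) r = if r = j then 1 else 0 := by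
      intro r h1 h2
      change cv Q (cmb p Φ cj) r / r = _
      rw [hcv r h2]
      have : (r : ℂ) ≠ 0 := by
        exact_mod_cast (by omega : r ≠ 0)
      field_simp
    have hFb : ∀ m, p < m → ‖cmb p Φ cj m‖ ≤ j * BB p m j := by
      refine hV j cj hj hjp ?_
      intro r h1 h2
      rw [hcv r h2]
      by_cases h : r = j
      · rw [if_pos h, if_pos h, mul_one, h]
      · rw [if_neg h, if_neg h, mul_zero]
    refine ⟨cj, fun m : ℕ => cv Q (cmb p Φ cj) m / m, hbj, hbr, ?_⟩
    intro m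
    induction m using Nat.strong_induction_on with
    | _ m ih =>
      intro hm
      have h1 := hSTE p m j Q (fun m : ℕ => cv Q (cmb p Φ cj) m / m) (cmb p Φ cj) hj hjp hm hQ hR hbj hbr
        (fun k hk hkm => ih k hkm hk) (fun k hk _ => hFb k hk)
      have h2 := hFb m hm
      have h3 : ‖(m : ℂ) * (cv Q (cmb p Φ cj) m / m)‖ ≤ m * AA p m j := by
        calc ‖(m : ℂ) * (cv Q (cmb p Φ cj) m / m)‖
            = ‖((m : ℂ) * (cv Q (cmb p Φ cj) m / m) - cmb p Φ cj m) + cmb p Φ cj m‖ := by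
              rw [sub_add_cancel]
          _ ≤ ‖(m : ℂ) * (cv Q (cmb p Φ cj) m / m) - cmb p Φ cj m‖ + ‖cmb p Φ cj m‖ := norm_add_le _ _
          _ ≤ (m * AA p m j - j * BB p m j) + j * BB p m j := add_le_add h1 h2
          _ = m * AA p m j := by ring
      rw [norm_mul, Complex.norm_natCast] at h3
      have hmpos : (0 : ℝ) < m := by
        exact_mod_cast (by omega : 0 < m)
      exact le_of_mul_le_mul_left h3 hmpos
  choose! cj bj hk1 hk2 hk3 using key
  -- the general case
  have hcmb : ∀ r, cmb p Φ (fun m => c m - ∑ j ∈ Icc 1 p, b j * cj j m) r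
      = cmb p Φ c r - ∑ j ∈ Icc 1 p, b j * cmb p Φ (cj j) r := by
    intro r
    unfold cmb
    simp only [sub_mul, Finset.sum_sub_distrib, Finset.mul_sum, Finset.sum_mul]
    congr 1
    rw [Finset.sum_comm]
    refine Finset.sum_congr rfl fun j _ => Finset.sum_congr rfl fun m _ => by ring
  have hcv : ∀ r, cv Q (cmb p Φ (fun m => c m - ∑ j ∈ Icc 1 p, b j * cj j m)) r
      = cv Q (cmb p Φ c) r - ∑ j ∈ Icc 1 p, b j * cv Q (cmb p Φ (cj j)) r := by
    intro r
    unfold cv
    simp only [hcmb, mul_sub, Finset.sum_sub_distrib, Finset.mul_sum]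
    congr 1
    rw [Finset.sum_comm]
    refine Finset.sum_congr rfl fun j _ => Finset.sum_congr rfl fun m _ => by ring
  have hsmall : ∀ r, r ≤ p → cmb p Φ (fun m => c m - ∑ j ∈ Icc 1 p, b j * cj j m) r = 0 := by
    intro r
    induction r using Nat.strong_induction_on with
    | _ r ih =>
      intro hr
      rcases Nat.eq_zero_or_pos r with h | h
      · rw [h]
        exact CCV_zero p Φ hlow _
      · have h1 := hcv r
        rw [CCV_cv_succ Q _ hQ r] at h1
        rw [Finset.sum_eq_zero (fun m hm => by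
          rw [ih m (mem_range.1 hm) (by have := mem_range.1 hm; omega), mul_zero]), zero_add] at h1
        rw [h1, ← hb r]
        rw [Finset.sum_congr rfl (fun j hj => by
          rw [← hk1 j (mem_Icc.1 hj).1 (mem_Icc.1 hj).2 r, hk2 j (mem_Icc.1 hj).1 (mem_Icc.1 hj).2 r h hr])]
        rw [Finset.sum_eq_single_of_mem r (by rw [mem_Icc]; omega)]
        · simp
          ring
        · intro j _ hne
          rw [if_neg (Ne.symm hne)]
          ring
  have hzero : ∀ m ∈ Icc 1 p, (fun m => c m - ∑ j ∈ Icc 1 p, b j * cj j m) m = 0 :=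
    (hLIN p Φ hlow hdiag).2 _ (fun j hj => hsmall j (mem_Icc.1 hj).2)
  have hall : ∀ r, cmb p Φ (fun m => c m - ∑ j ∈ Icc 1 p, b j * cj j m) r = 0 := by
    intro r
    unfold cmb
    refine Finset.sum_eq_zero fun m hm => ?_
    have := hzero m hm
    rw [this, zero_mul]
  have hbn : b n = ∑ j ∈ Icc 1 p, b j * bj j n := by
    have h1 := hcv n
    have h2 : cv Q (cmb p Φ (fun m => c m - ∑ j ∈ Icc 1 p, b j * cj j m)) n = 0 := by
      unfold cv
      refine Finset.sum_eq_zero fun m _ => ?_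
      rw [hall m, mul_zero]
    rw [h2, ← hb n] at h1
    rw [Finset.sum_congr rfl (fun j hj => by
      rw [← hk1 j (mem_Icc.1 hj).1 (mem_Icc.1 hj).2 n])] at h1
    have hnz : (n : ℂ) ≠ 0 := by
      exact_mod_cast (by omega : n ≠ 0)
    have h3 : (n : ℂ) * b n = (n : ℂ) * ∑ j ∈ Icc 1 p, b j * bj j n := by
      rw [Finset.mul_sum]
      rw [Finset.sum_congr rfl (fun j _ => by ring : ∀ j ∈ Icc 1 p, (n : ℂ) * (b j * bj j n) = b j * (n * bj j n))]
      exact (sub_eq_zero.1 h1.symm)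
    exact mul_left_cancel₀ hnz h3
  rw [hbn]
  refine (norm_sum_le _ _).trans (Finset.sum_le_sum fun j hj => ?_)
  rw [norm_mul, mul_comm]
  exact mul_le_mul_of_nonneg_right (hk3 j (mem_Icc.1 hj).1 (mem_Icc.1 hj).2 n hn) (norm_nonneg _)

end Pool.Agent.GD
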