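import Pool.Agent.helper65.GD.SpecF

set_option autoImplicit false

namespace Pool.Agent.GD

open Finset

/-- The space of the solutions of `z f' = Q F`. -/
theorem XM2 (hCCV : XM1_stmt) : XM2_stmt := by
  intro p Q Φ hQ hR hGlow hGdiag hV
  have hlow : ∀ m n, n < m → cv Q (Φ m) n = 0 := by
    intro m n h
    unfold cv
    refine Finset.sum_eq_zero fun r hr => ?_
    rw [hGlow m r (by have := mem_range.1 hr; omega), mul_zero]
  have hdiag : ∀ m, cv Q (Φ m) m = 1 := by
    intro m
    unfold cv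
    rw [Finset.sum_range_succ, Nat.sub_self, hQ, hGdiag m, Finset.sum_eq_zero (fun r hr => by
      rw [hGlow m r (mem_range.1 hr), mul_zero])]
    ring
  let Ψ : ℕ → ℕ → ℂ := fun m n => if m = n then 1 else if n < m then 0 else m * cv Q (Φ m) n / n
  have hΨ : ∀ m n : ℕ, (n : ℂ) * Ψ m n = m * cv Q (Φ m) n := by
    intro m n
    change (n : ℂ) * (if m = n then 1 else if n < m then 0 else m * cv Q (Φ m) n / n) = _
    by_cases h1 : m = n
    · rw [if_pos h1, ← h1, hdiag m]
    · rw [if_neg h1]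
      by_cases h2 : n < m
      · rw [if_pos h2, hlow m n h2]
        ring
      · rw [if_neg h2]
        have : (n : ℂ) ≠ 0 := by
          exact_mod_cast (by omega : n ≠ 0)
        field_simp
  have hlowΨ : ∀ m n, n < m → Ψ m n = 0 := by
    intro m n h
    change (if m = n then (1 : ℂ) else if n < m then 0 else m * cv Q (Φ m) n / n) = 0
    rw [if_neg (by omega), if_pos h]
  have hdiagΨ : ∀ m, Ψ m m = 1 := by
    intro m
    change (if m = m then (1 : ℂ) else if m < m then 0 else m * cv Q (Φ m) m / m) = 1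
    rw [if_pos rfl]
  have hcΨ : ∀ (c : ℕ → ℂ) (n : ℕ), (n : ℂ) * cmb p Ψ c n = cv Q (cmb p Φ (fun m => c m * m)) n := by
    intro c n
    rw [ITE_cv_cmb]
    unfold cmb
    rw [Finset.mul_sum]
    refine Finset.sum_congr rfl fun m _ => ?_
    calc (n : ℂ) * (c m * Ψ m n) = c m * (n * Ψ m n) := by ring
      _ = c m * (m * cv Q (Φ m) n) := by rw [hΨ]
      _ = c m * m * cv Q (Φ m) n := by ring
  refine ⟨Ψ, ⟨hlowΨ, hdiagΨ, ?_⟩, ?_⟩
  · intro c n hn
    exact hCCV p Q Φ hQ hR hGlow hGdiag hV (fun m => c m * m) (cmb p Ψ c) (hcΨ c) n hn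
  · intro c b hb
    refine ⟨fun m => c m / m, fun n hn => ?_⟩
    have h1 := hcΨ (fun m => c m / m) n
    have h2 : cmb p Φ (fun m => c m / m * m) = cmb p Φ c := by
      funext r
      unfold cmb
      refine Finset.sum_congr rfl fun m hm => ?_
      have : (m : ℂ) ≠ 0 := by
        exact_mod_cast (by have := (mem_Icc.1 hm).1; omega : m ≠ 0)
      field_simp
    rw [h2, ← hb n] at h1
    have hn' : (n : ℂ) ≠ 0 := by
      exact_mod_cast (by omega : n ≠ 0)
    exact (mul_left_cancel₀ hn' h1).symm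


end Pool.Agent.GD
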