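import Pool.Agent.helper65.GF.XEM
import Pool.Agent.helper58.GF.XCB
import Pool.Agent.helper94.GF.XAV
import Pool.Agent.helper80.GF.XT1
import Pool.Agent.helper82.GF.XT2
import Pool.Agent.helper22.GF.XOD
import Pool.Agent.helper22.GF.XT3
import Pool.Agent.helper77.GF.XTB
import Pool.Agent.helper85.GF.XGB
import Pool.Agent.helper82.GF.XLB
import Pool.Agent.helper15.GF.XGR
import Pool.Agent.helper95.GF.XZ1
import Pool.Agent.helper54.GF.XQM
import Pool.Agent.helper18.GF.XHK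
import Pool.Agent.helper64.GF.XZB
import Pool.Agent.helper79.GF.XEB
import Pool.Agent.helper77.GF.XPB
import Pool.Agent.helper51.GF.XDL
import Pool.Agent.helper57.GF.XNI
import Pool.Agent.helper3.GF.XN1
import Pool.Agent.helper27.GF.XN2
import Pool.Agent.helper63.GF.XN3
import Pool.Agent.helper32.GF.XFB
import Pool.Agent.helper47.GF.XPS
import Pool.Agent.helper22.GF.XM3
import Pool.Agent.helper22.GF.XG1
import Pool.Agent.helper16.GF.XG2
import Pool.Agent.helper24.GF.XS0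
import Pool.Agent.helper23.GF.XST
import Pool.Agent.helper65.GF.XM1
import Pool.Agent.helper65.GF.XM2
import Pool.Agent.helper8.GD.IDA
import Pool.Agent.helper23.GD.CTN
import Pool.Agent.helper65.GF.FIN

set_option autoImplicit false

/-! # Goodman's inequality for polynomials of close-to-convex functions: assembly -/

namespace Pool.Agent.GD

open Metric

theorem h_XEM : XEM_stmt := XEM

theorem h_XCB : XCB_stmt := XCB

theorem h_XAV : XAV_stmt := XAV

theorem h_XT1 : XT1_stmt := XT1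

theorem h_XT2 : XT2_stmt := XT2 h_XT1

theorem h_XOD : XOD_stmt := XOD

theorem h_XT3 : XT3_stmt := XT3 h_XOD

theorem h_XTB : XTB_stmt := XTB h_XT2 h_XT3

theorem h_XGB : XGB_stmt := XGB h_XEM h_XCB h_XAV h_XTB

theorem h_XLB : XLB_stmt := XLB

theorem h_XGR : XGR_stmt := XGR

theorem h_XZ1 : XZ1_stmt := XZ1 h_XLB h_XGR h_XCB

theorem h_XQM : XQM_stmt := XQM

theorem h_XHK : XHK_stmt := XHK IDA h_XGR h_XQM

theorem h_XZB : XZB_stmt := XZB h_XGR h_XZ1 h_XHK

theorem h_XEB : XEB_stmt := XEB h_XCB h_XAV h_XGB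

theorem h_XPB : XPB_stmt := XPB h_XAV h_XZB

theorem h_XDL : XDL_stmt := XDL h_XCB h_XGR h_XEB h_XPB CTN

theorem h_XNI : XNI_stmt := XNI

theorem h_XN1 : XN1_stmt := XN1

theorem h_XN2 : XN2_stmt := XN2

theorem h_XN3 : XN3_stmt := XN3 h_XN1 h_XN2

theorem h_XFB : XFB_stmt := XFB h_XNI h_XN3

theorem h_XPS : XPS_stmt := XPS

theorem h_XM1 : XM1_stmt := XM1

theorem h_XM2 : XM2_stmt := XM2 h_XM1

theorem h_XM3 : XM3_stmt := XM3 h_XPS h_XFB

theorem h_XG1 : XG1_stmt := XG1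

theorem h_XG2 : XG2_stmt := XG2

theorem h_XS0 : XS0_stmt := XS0

theorem h_XST : XST_stmt := XST h_XEM h_XDL h_XM2 h_XM3 h_XPS h_XG1 h_XG2

theorem inv_ctc_int (p : ℕ) (φ f h : ℂ → ℂ) (hφ : Ctc φ) (hh : Inv p h) (hf : DifferentiableOn ℂ f (ball 0 1))
    (he : ∀ z ∈ ball (0 : ℂ) 1, deriv f z = deriv φ z * h z) : Inv (p + 1) f :=
  fin_int h_XS0 h_XST p φ f h hφ hh hf he

theorem inv_ctc_poly (φ : ℂ → ℂ) (hφ : Ctc φ) (p : ℕ) :
    ∀ P : Polynomial ℂ, P.natDegree ≤ p → Inv p (fun z => P.eval (φ z)) :=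
  fin_poly h_XS0 h_XST φ hφ p

end Pool.Agent.GD
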