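import Pool.Agent.helper65.GF.AllF

/-!
# Goodman's inequality for polynomials of Bazilevic functions of type 1/2 (MP_ea335c_an)

Class: `φ(z²) = F(z)²` with `F` odd and close-to-convex (`Re (c z F'/G) > 0`, `G` odd starlike). `F' = ...`: the
half steps `z f' = Q G h` with `Q` even of positive real part, `G` odd starlike raise the order `s` by `1/2`.

Row `XX`: `theorem XX (h1 : YY_stmt) ... : XX_stmt` in namespace `Pool.Agent.GD`, file `Pool/Agent/<seat>/GH/XX.lean`,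
importing this file (`Pool.Agent.helper65.GF.SpecG`). A complete proof of every row is in its docstring. All
identities and inequalities were checked numerically. The rows are parallel to rows of
`Pool.Agent.helper65.GD.SpecF` (and `SpecE`), whose proofs can be copied and adapted: the files are
`Pool/Agent/<seat>/GF/<row>.lean`, see the imports of `Pool/Agent/helper65/GF/AllF.lean`; there `h_XAV : XAV_stmt` etc. are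
available as theorems.
-/

set_option autoImplicit false

namespace Pool.Agent.GD

open Finset Metric Filter Topology

/-- `A(s, n + 1/2, j + 1/2)` for `s = p + 1/2`. -/
noncomputable def AH (p n j : ℕ) : ℝ :=
  (2 * j + 1) * (n + p + 1).factorial /
    ((p - j).factorial * (p + j + 1).factorial * (n - p - 1).factorial * (((n : ℝ) - j) * ((n : ℝ) + j + 1)))

/-- `B(s, n + 1/2, j + 1/2)`. -/
noncomputable def BH (p n j : ℕ) : ℝ := AH p n j + 2 * ∑ q ∈ Ioc j p, AH p n q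

/-- `∑_{m=0}^p c_m Φ_m`. -/
noncomputable def cmbh (p : ℕ) (Φ : ℕ → ℕ → ℂ) (c : ℕ → ℂ) (n : ℕ) : ℂ := ∑ m ∈ range (p + 1), c m * Φ m n

/-- Goodman spaces of order `p + 1/2` (sequences indexed by the exponents `n + 1/2`). -/
structure GooH (p : ℕ) (Φ : ℕ → ℕ → ℂ) : Prop where
  low : ∀ m n : ℕ, n < m → Φ m n = 0
  diag : ∀ m : ℕ, Φ m m = 1
  ineq : ∀ (c : ℕ → ℂ) (n : ℕ), p < n → ‖cmbh p Φ c n‖ ≤ ∑ j ∈ range (p + 1), AH p n j * ‖cmbh p Φ c j‖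

/-- `1, 3, 4, 4, ...`. -/
def EH (i : ℕ) : ℝ := if i = 0 then 1 else if i = 1 then 3 else 4

/-- `1, 2, 2, ...`. -/
def TH (r : ℕ) : ℝ := if r = 0 then 1 else 2

/-- What is used about `v = √ĝ = ex 1 β` and `e = (ex (-1) β) κ`. -/
structure DatH (v e : ℕ → ℂ) (D : ℝ) : Prop where
  D0 : 0 ≤ D
  v0 : v 0 = 1
  e0 : e 0 = 1
  e1 : ‖e 1‖ ≤ 3 - D / 2
  e2 : ∀ i, ‖e i‖ ≤ 4
  vb : ∀ n : ℕ, ‖v n‖ ≤ 1
  p1 : ∀ A r : ℕ, 1 ≤ A → 1 ≤ r → ‖∑ i ∈ range (r + 1), v (A + r - i) * e i‖ ≤ 2 + (2 * (r : ℝ) - 1) * (A * D / 2)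

/-! ## Block A: numbers -/

/-- (medium) For fixed `p`, `i` induction on `n`: the difference of the claims for `n + 1` and `n` is
`AH p (n+1) i - AH p n i = AA p (n+1) i + [i < p] AA p (n+1) (i+1)`. With `C = (n+p+1)!/((p-i)! (p+i+1)! (n-p)!)`:
`AH p (n+1) i = (2i+1) C (n+p+2)/((n+1-i)(n+2+i))`, `AH p n i = (2i+1) C (n-p)/((n-i)(n+i+1))`,
`AA p (n+1) i = 2i C (p+i+1)/((n+1-i)(n+1+i))`, `AA p (n+1) (i+1) = 2(i+1) C (p-i)/((n-i)(n+2+i))` (this formula gives `0` for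
`i = p`): a rational identity (`field_simp; ring`). Start `n = p + 1`: both sides
(`AH p (p+1) i = (2i+1)(2p+2)!/((p+1-i)! (p+i+2)!)`, `1` if `i = p` ...): or start the induction at `n = p` in the form
`∑_{m ∈ Ioc p n}` with the value `[i = p]` for the left side (the formula `(n-p) ...` above is `0` at `n = p` unless `i = p`). -/
def YNA_stmt : Prop := ∀ p n i : ℕ, i ≤ p → p < n →
  AH p n i = (if i = p then 1 else 0) + ∑ m ∈ Ioc p n, (AA p m i + if i < p then AA p m (i + 1) else 0)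

/-- (medium) As `YNA`: the difference for `n + 1` and `n` (`n ≥ p + 1`) is
`AA (p+1) (n+1) i - AA (p+1) n i = AH p n (i-1) + [i ≤ p] AH p n i`. With `C = (n+p+1)!/((p+1-i)! (p+i+1)! (n-p-1)!)`:
`AA (p+1) (n+1) i = 2i C (n+p+2)/((n+1-i)(n+1+i))`, `AA (p+1) n i = 2i C (n-p-1)/((n-i)(n+i))`,
`AH p n (i-1) = (2i-1) C (p+i+1)/((n-i+1)(n+i))`, `AH p n i = (2i+1) C (p+1-i)/((n-i)(n+i+1))` (`0` for `i = p + 1`). -/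
def YNB_stmt : Prop := ∀ p n i : ℕ, 1 ≤ i → i ≤ p + 1 → p + 1 < n →
  AA (p + 1) n i = (if i = p + 1 then 1 else 0) + ∑ m ∈ Ioo p n, (AH p m (i - 1) + if i ≤ p then AH p m i else 0)

/-- (short-medium) From `YNA`. `BH p n j = ∑_{q=j}^p t_{q-j} AH p n q`, `t = 1, 2, 2, ...`; the coefficient of `AA p m k` is
`t_{k-j} + t_{k-1-j} = EH (k-j)` (`t = 0` for negative index; `AA p m 0 = 0`), the boundary term is `t_{p-j} = TH (p-j)`.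
(Compare `XNI`, `Pool/Agent/helper57/GF/XNI.lean`.) -/
def YNC_stmt : Prop := ∀ p n j : ℕ, j ≤ p → p < n →
  TH (p - j) + ∑ m ∈ Ioc p n, ∑ k ∈ Icc 1 p, AA p m k * (if k < j then 0 else EH (k - j)) = BH p n j

/-- (short-medium) From `YNB`. `BB (p+1) n j = ∑_{q=j}^{p+1} t_{q-j} AA (p+1) n q`; the coefficient of `AH p m k` is
`t_{k+1-j} + t_{k-j} = EH (k+1-j)`, the boundary term is `t_{p+1-j} = TH (p+1-j)`. -/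
def YND_stmt : Prop := ∀ p n j : ℕ, 1 ≤ j → j ≤ p + 1 → p + 1 < n →
  TH (p + 1 - j) + ∑ m ∈ Ioo p n, ∑ k ∈ range (p + 1), AH p m k * (if k + 1 < j then 0 else EH (k + 1 - j)) =
    BB (p + 1) n j

/-- (short-medium) `h_XN2` (monotone in `m`) reduces to `m = p + 1`: `AA p (p+1) k = k/(p+1) C(2p+2, p+1-k)`, `k = j + 1`,
`r = p + 1 - k = p - j`: `r = 1`: `2p ≥ 1`; `r ≥ 2`: `C(2p+2, r) ≥ C(2p+2, 2) = (p+1)(2p+1)` (`2 ≤ r ≤ p + 1`), so the value is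
`≥ k (2p+1) ≥ 2r - 1`. (Compare `XN1`, `Pool/Agent/helper3/GF/XN1.lean`.) -/
def YNE_stmt : Prop := ∀ p m j : ℕ, j < p → p < m → 2 * ((p : ℝ) - j) - 1 ≤ AA p m (j + 1)

/-- (medium) Monotone in `m`: `AH p (m+1) j / AH p m j = (m+p+2)(m-j)(m+j+1)/((m-p)(m+1-j)(m+2+j)) ≥ 1` (`m+p+2 ≥ m+2+j`,
`m-j ≥ m-p`, `m+j+1 ≥ m+1-j`). `m = p + 1`: `AH p (p+1) j = (2j+1)/(2p+3) C(2p+3, p+1-j)`, `r = p + 1 - j`: `r = 1`: `2p+1`;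
`r ≥ 2`: `C(2p+3, r) ≥ C(2p+3, 2) = (2p+3)(p+1)`, value `≥ (2j+1)(p+1) ≥ 2r - 1`. -/
def YNF_stmt : Prop := ∀ p m j : ℕ, 1 ≤ j → j ≤ p → p < m → 2 * ((p : ℝ) + 1 - j) - 1 ≤ AH p m j

/-- (medium) As `NUB_stmt` of `SpecE` (`Pool/Agent/helper10/GD/NUB.lean`), with half-integers: downward induction on `j`. `j = p`:
`(2n+3) AH p (n+1) p - (2n+1) AH p n p = (2p+1)(AH p (n+1) p + AH p n p)`, i.e. `(n+1-p) AH p (n+1) p = (n+1+p) AH p n p`. Step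
`j + 1 → j` (divide by `2j+1` resp. `2j+3` and subtract, `BH p n j - BH p n (j+1) = AH p n j + AH p n (j+1)`). -/
def YNU_stmt : Prop := ∀ p n j : ℕ, j ≤ p → p < n →
  (2 * (n : ℝ) + 3) * AH p (n + 1) j - (2 * n + 1) * AH p n j = (2 * j + 1) * (BH p (n + 1) j + BH p n j)

/-- (short-medium) As `NUC_stmt` (`Pool/Agent/helper32/GD/NUC.lean`). -/
def YNV_stmt : Prop := ∀ p j : ℕ, j ≤ p →
  (2 * (p : ℝ) + 3) * AH p (p + 1) j - (2 * j + 1) * BH p (p + 1) j = 2 * (2 * j + 1)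

/-- (short) From `YNU`, `YNV`, as `NUE_stmt` (`Pool/Agent/helper77/GD/NUE.lean`). -/
def YNW_stmt : Prop := ∀ p n j : ℕ, j ≤ p → p < n →
  0 ≤ (2 * n + 1) * AH p n j - (2 * j + 1) * BH p n j ∧ 0 ≤ AH p n j ∧ 0 ≤ BH p n j ∧
  ((2 * n + 1) * AH p n j - (2 * j + 1) * BH p n j) ^ 2 =
    4 * (2 * (j : ℝ) + 1) ^ 2 + 4 * ∑ m ∈ Ioo p n, ((2 * m + 1) * AH p m j) * ((2 * j + 1) * BH p m j)

/-! ## Block B: the step which keeps the order -/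

/-- (short-medium) From `YNW`, as `STE_stmt` (`Pool/Agent/helper89/GD/STE.lean`). `F_r = 0` for `r < j` (induction,
`F_r = cv Q F r - ∑_{m<r} Q_{r-m} F_m`), `F_j = 2j + 1`. In Rogosinski's inequality
`‖cv Q F n - F n‖² ≤ 4 ∑_{m<n} ‖cv Q F m‖ ‖F m‖` the terms `m ≤ p` give `(2j+1)²` (only `m = j`), the others
`≤ ((2m+1) AH p m j) ((2j+1) BH p m j)`. -/
def YST_stmt : Prop := ∀ (p n j : ℕ) (Q b F : ℕ → ℂ), j ≤ p → p < n → Q 0 = 1 → Rgs Q →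
  (∀ m : ℕ, (2 * (m : ℂ) + 1) * b m = cv Q F m) → (∀ r, r ≤ p → b r = if r = j then 1 else 0) →
  (∀ m, p < m → m < n → ‖b m‖ ≤ AH p m j) → (∀ m, p < m → m < n → ‖F m‖ ≤ (2 * j + 1) * BH p m j) →
  ‖(2 * (n : ℂ) + 1) * b n - F n‖ ≤ (2 * n + 1) * AH p n j - (2 * j + 1) * BH p n j

/-- (short) As `LIN_stmt` (`Pool/Agent/helper50/GD/LIN.lean`), with the indices `0, ..., p`. -/
def YLI_stmt : Prop := ∀ (p : ℕ) (Φ : ℕ → ℕ → ℂ), (∀ m n, n < m → Φ m n = 0) → (∀ m, Φ m m = 1) →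
  (∀ t : ℕ → ℂ, ∃ c : ℕ → ℂ, ∀ j, j ≤ p → cmbh p Φ c j = t j) ∧
  ∀ c : ℕ → ℂ, (∀ j, j ≤ p → cmbh p Φ c j = 0) → ∀ m, m ≤ p → c m = 0

/-- (medium) From `YST`, `YLI`. A copy of `XM1` (`Pool/Agent/helper65/GF/XM1.lean`) with `(2n+1) b_n` for `n b_n`, the indices
`0, ..., p`, and `AH`, `BH`. -/
def YM1_stmt : Prop := ∀ (p : ℕ) (Q : ℕ → ℂ) (Φ : ℕ → ℕ → ℂ), Q 0 = 1 → Rgs Q →
  (∀ m n, n < m → Φ m n = 0) → (∀ m, Φ m m = 1) →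
  (∀ (j : ℕ) (c : ℕ → ℂ), j ≤ p →
    (∀ r, r ≤ p → cv Q (cmbh p Φ c) r = if r = j then (2 * (j : ℂ) + 1) else 0) →
    ∀ n, p < n → ‖cmbh p Φ c n‖ ≤ (2 * j + 1) * BH p n j) →
  ∀ (c b : ℕ → ℂ), (∀ n : ℕ, (2 * (n : ℂ) + 1) * b n = cv Q (cmbh p Φ c) n) →
  ∀ n : ℕ, p < n → ‖b n‖ ≤ ∑ j ∈ range (p + 1), AH p n j * ‖b j‖

/-- (short-medium) From `YM1`, as `XM2` (`Pool/Agent/helper65/GF/XM2.lean`): `Ψ m n = (2m+1) cv Q (Φ m) n / (2n+1)`. -/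
def YM2_stmt : Prop := ∀ (p : ℕ) (Q : ℕ → ℂ) (Φ : ℕ → ℕ → ℂ), Q 0 = 1 → Rgs Q →
  (∀ m n, n < m → Φ m n = 0) → (∀ m, Φ m m = 1) →
  (∀ (j : ℕ) (c : ℕ → ℂ), j ≤ p →
    (∀ r, r ≤ p → cv Q (cmbh p Φ c) r = if r = j then (2 * (j : ℂ) + 1) else 0) →
    ∀ n, p < n → ‖cmbh p Φ c n‖ ≤ (2 * j + 1) * BH p n j) →
  ∃ Ψ : ℕ → ℕ → ℂ, GooH p Ψ ∧ ∀ c b : ℕ → ℂ, (∀ n : ℕ, (2 * (n : ℂ) + 1) * b n = cv Q (cmbh p Φ c) n) →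
    ∃ c' : ℕ → ℂ, ∀ n, b n = cmbh p Ψ c' n

/-! ## Block C: the data -/

/-- (short) Strong induction: `n ‖v_n‖ ≤ ∑_{q<n} 1 = n`. -/
def YVB_stmt : Prop := ∀ β : ℕ → ℂ, (∀ m, ‖β m‖ ≤ 1) → ∀ n : ℕ, ‖ex 1 β n‖ ≤ 1

/-- (medium) `u = ex (-1) (mom w x)`, `T^y = gy u y`. `∑_j w_j |T^{x_j}_m|² = ∑_{l≤m} |u_l|² + 2 Re ∑_{q<l≤m} β_{l-q} u_q conj u_l
= ∑_{l≤m} (1 - 2l) |u_l|²` (`∑_{q<l} β_{l-q} u_q = -l u_l`; `|x_j| = 1`), which for `m ≥ 1` is at most `1 - |u_1|² = 1 - |β_1|²`. -/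
def YUB_stmt : Prop := ∀ (N : ℕ) (w : Fin N → ℝ) (x : Fin N → ℂ) (m : ℕ), Atomic N w x → 1 ≤ m →
  ∑ l, w l * ‖gy (ex (-1) (mom w x)) (x l) m‖ ^ 2 ≤ 1 - ‖mom w x 1‖ ^ 2

/-- (medium) From `YUB`. `u`, `T` as there, `D = 1 - |β_1|²`. (1) `∑ w_j x_j T^{x_j}_{m-1} = -m u_m`, `∑ w_j T^{x_j}_m = (1-m) u_m`, so
`m |u_m| ≤ |∑ w (x - β_1) T_{m-1}| + |β_1| (m-2) |u_{m-1}| ≤ √D √D + (m-2) |u_{m-1}|` and `|u_m| ≤ D/2` for `m ≥ 2` by induction.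
(2) `∑ w x^B T_m = ∑ w (x^B - β_B) T_m + β_B (1-m) u_m`; `∑ w |x^B - β_B|² ≤ ∑ w |x^B - β_1^B|² ≤ B² ∑ w |x - β_1|² = B² D`
(`|x^B - c^B| ≤ B |x - c|` for `|x|, |c| ≤ 1`), Cauchy-Schwarz with `YUB`: `≤ B D + (m-1) D/2` (for `m = 1` the last term is `0`). -/
def YUM_stmt : Prop := ∀ (N : ℕ) (w : Fin N → ℝ) (x : Fin N → ℂ) (m : ℕ), Atomic N w x → 1 ≤ m →
  (2 ≤ m → ‖ex (-1) (mom w x) m‖ ≤ (1 - ‖mom w x 1‖ ^ 2) / 2) ∧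
  ∀ B : ℕ, ‖∑ l, (w l : ℂ) * (x l ^ B * gy (ex (-1) (mom w x)) (x l) m)‖ ≤
    (1 - ‖mom w x 1‖ ^ 2) * (B + ((m : ℝ) - 1) / 2)

/-- (medium) From `IDA_stmt` (available: `IDA`, imported), `YVB`, `YUM`. As `XHK` (`Pool/Agent/helper18/GF/XHK.lean`) with `s = 1`:
`(A+m) C_{A,m} = ∑_{k<A} v_k ∑_{l≤m} β_{(A-k)+(m-l)} u_l`, the inner sum is `∑_j w_j x_j^{A-k} T^{x_j}_m`, of modulus
`≤ D ((A-k) + (m-1)/2)` (`YUM`), `|v_k| ≤ 1`, and `∑_{k<A} ((A-k) + (m-1)/2) = A (A+m)/2`. -/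
def YHC_stmt : Prop := ∀ (N : ℕ) (w : Fin N → ℝ) (x : Fin N → ℂ) (A m : ℕ), Atomic N w x → 1 ≤ A → 1 ≤ m →
  ‖CC (ex 1 (mom w x)) (ex (-1) (mom w x)) A m‖ ≤ (A : ℝ) * (1 - ‖mom w x 1‖ ^ 2) / 2

/-- (short) From `YVB`, `YHC`, as `XZB` (`Pool/Agent/helper64/GF/XZB.lean`): `Z_{A,r} = y Z_{A,r-1} + C_{A,r}`, `Z_{A,0} = v_A`. -/
def YHZ_stmt : Prop := ∀ (N : ℕ) (w : Fin N → ℝ) (x : Fin N → ℂ) (y : ℂ) (A r : ℕ), Atomic N w x → ‖y‖ = 1 → 1 ≤ A →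
  ‖ZZ (ex 1 (mom w x)) (ex (-1) (mom w x)) y A r‖ ≤ 1 + r * (A * (1 - ‖mom w x 1‖ ^ 2) / 2)

/-- (short-medium) `e = cv u κ`, `u = ex (-1) β`: `e_1 = κ_1 - β_1`, `‖κ_1‖ ≤ 2` (`h_XCB`) and `|β_1| ≤ 1 - D/2`
(`D = 1 - |β_1|²`). For `i ≥ 2` `h_XAV` (`a = u`, `Q = κ`, `b = δ_i`): `≤ ‖gy u y i‖ + ‖gy u y (i-1)‖ ≤ 4` (`h_XTB`, `h_XCB`). As `XEB`
(`Pool/Agent/helper79/GF/XEB.lean`). -/
def YHE_stmt : Prop := ∀ (N : ℕ) (w : Fin N → ℝ) (x : Fin N → ℂ) (κ : ℕ → ℂ), Atomic N w x → Cara κ →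
  cv (ex (-1) (mom w x)) κ 0 = 1 ∧
  ‖cv (ex (-1) (mom w x)) κ 1‖ ≤ 3 - (1 - ‖mom w x 1‖ ^ 2) / 2 ∧ ∀ i, ‖cv (ex (-1) (mom w x)) κ i‖ ≤ 4

/-- (short-medium) From `YHZ` and `h_XAV`, as `XPB` (`Pool/Agent/helper77/GF/XPB.lean`): `Z_{A,r}` and `Z_{A,r-1}`. -/
def YHP_stmt : Prop := ∀ (N : ℕ) (w : Fin N → ℝ) (x : Fin N → ℂ) (κ : ℕ → ℂ) (A r : ℕ), Atomic N w x → Cara κ →
  1 ≤ A → 1 ≤ r →
  ‖∑ i ∈ range (r + 1), ex 1 (mom w x) (A + r - i) * cv (ex (-1) (mom w x)) κ i‖ ≤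
    2 + (2 * (r : ℝ) - 1) * (A * (1 - ‖mom w x 1‖ ^ 2) / 2)

/-- (medium) From `YVB`, `YHE`, `YHP`, as `XDL` (`Pool/Agent/helper51/GF/XDL.lean`). -/
def YHD_stmt : Prop := ∀ β κ : ℕ → ℂ, Approx β → Cara κ →
  DatH (ex 1 β) (cv (ex (-1) β) κ) (1 - ‖β 1‖ ^ 2)

/-! ## Block D: the bounds for `F` -/

/-- (medium) From `YNC`, `YNE`, as `XFB` (`Pool/Agent/helper32/GF/XFB.lean`). `A = n - p`, `r = p - j`. The part `k ≤ p` of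
`∑_{k≤n} v_{n-k} h_k` is `(2j+1) ∑_{i≤r} v_{A+r-i} e_i` (`k = j + i`), of modulus `≤ (2j+1)` (`r = 0`) resp.
`(2j+1)(2 + (2r-1) A D/2)`; the part `p < m ≤ n` is `≤ ∑_m ∑_k AA p m k (2j+1) ‖e_{k-j}‖`, `‖e_i‖ ≤ EH i`, and for `r ≥ 1` the term
`k = j + 1` saves `(D/2) ∑_m AA p m (j+1) ≥ (D/2) A (2r-1)` (`YNE`; there are `A` values of `m`). `0 ≤ AA p m k`: `nue_holds`. -/
def YF1_stmt : Prop := ∀ (p n j : ℕ) (v e h : ℕ → ℂ) (D : ℝ), DatH v e D → j ≤ p → p < n →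
  (∀ k, k ≤ p → h k = if k < j then 0 else (2 * (j : ℂ) + 1) * e (k - j)) →
  (∀ m, p < m → ‖h m‖ ≤ ∑ k ∈ Icc 1 p, AA p m k * ‖h k‖) →
  ‖cv v h n‖ ≤ (2 * j + 1) * BH p n j

/-- (medium) From `YND`, `YNF`, `YNW`, as `YF1`. `A = n - p - 1`, `r = p + 1 - j`. The part `k ≤ p` of `gs v h n = ∑_{k<n} v_{n-1-k} h_k` is
`j ∑_{i≤r} v_{A+r-i} e_i` (`k = j - 1 + i`); the part `p < m < n` is `≤ ∑_m ∑_k AH p m k j ‖e_{k+1-j}‖`, and for `r ≥ 1` (`j ≤ p`) the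
term `k = j` saves `(D/2) ∑_m AH p m j ≥ (D/2) A (2r-1)`. -/
def YF2_stmt : Prop := ∀ (p n j : ℕ) (v e h : ℕ → ℂ) (D : ℝ), DatH v e D → 1 ≤ j → j ≤ p + 1 → p + 1 < n →
  (∀ k, k ≤ p → h k = if k + 1 < j then 0 else j * e (k + 1 - j)) →
  (∀ m, p < m → ‖h m‖ ≤ ∑ k ∈ range (p + 1), AH p m k * ‖h k‖) →
  ‖gs v h n‖ ≤ j * BB (p + 1) n j

/-- The basis of the space of the `√g h`, `h` of integral order. -/
noncomputable def psh (v : ℕ → ℂ) (Φ : ℕ → ℕ → ℂ) (m n : ℕ) : ℂ := cv v (one0 Φ m) n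

/-- The basis of the space of the `√g h`, `h` of half-integral order. -/
noncomputable def psk (v : ℕ → ℂ) (Φ : ℕ → ℕ → ℂ) (m n : ℕ) : ℂ :=
  if m = 0 then (if n = 0 then 1 else 0) else gs v (Φ (m - 1)) n

/-- (short) As `XPS` (`Pool/Agent/helper47/GF/XPS.lean`). -/
def YPA_stmt : Prop := ∀ (p : ℕ) (v : ℕ → ℂ) (Φ : ℕ → ℕ → ℂ), Goo p Φ → v 0 = 1 →
  (∀ m n, n < m → psh v Φ m n = 0) ∧ (∀ m, psh v Φ m m = 1) ∧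
  (∀ (c : ℕ → ℂ) (n : ℕ), cmbh p (psh v Φ) c n = cv v (fun r => ∑ m ∈ range (p + 1), c m * one0 Φ m r) n) ∧
  ∀ (c : ℕ → ℂ) (m : ℕ), p < m → ‖∑ i ∈ range (p + 1), c i * one0 Φ i m‖ ≤
    ∑ k ∈ Icc 1 p, AA p m k * ‖∑ i ∈ range (p + 1), c i * one0 Φ i k‖

/-- (short) As `YPA`. -/
def YPB_stmt : Prop := ∀ (p : ℕ) (v : ℕ → ℂ) (Φ : ℕ → ℕ → ℂ), GooH p Φ → v 0 = 1 →
  (∀ m n, n < m → psk v Φ m n = 0) ∧ (∀ m, psk v Φ m m = 1) ∧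
  ∀ (c : ℕ → ℂ) (n : ℕ), cmb (p + 1) (psk v Φ) c n = gs v (cmbh p Φ (fun m => c (m + 1))) n

/-- (medium) From `YPA`, `YF1`, as `XM3` (`Pool/Agent/helper22/GF/XM3.lean`). `F = cmbh p (psh v Φ) c = cv v h`. `(cv Q F)_r = (2j+1) δ_{rj}` for
`r ≤ p`, so `F_r = (cv κ (cv Q F))_r = (2j+1) κ_{r-j}` (`0` for `r < j`) and `h_k = (cv u F)_k = (2j+1) (cv u κ)_{k-j}` for
`k ≤ p`. -/
def YMA_stmt : Prop := ∀ (p : ℕ) (Q κ v u : ℕ → ℂ) (D : ℝ) (Φ : ℕ → ℕ → ℂ), Goo p Φ →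
  (∀ n, cv κ Q n = dl n) → (∀ n, cv u v n = dl n) → DatH v (cv u κ) D →
  ∀ (j : ℕ) (c : ℕ → ℂ), j ≤ p →
    (∀ r, r ≤ p → cv Q (cmbh p (psh v Φ) c) r = if r = j then (2 * (j : ℂ) + 1) else 0) →
    ∀ n, p < n → ‖cmbh p (psh v Φ) c n‖ ≤ (2 * j + 1) * BH p n j

/-- (medium) From `YPB`, `YF2`, as `XM3`. `F = cmb (p+1) (psk v Φ) c = gs v h`, `h = cmbh p Φ (c (· + 1))`, `F_{k+1} = (cv v h)_k`;
`F_r = j κ_{r-j}` for `r ≤ p + 1`, `h_k = j (cv u κ)_{k+1-j}` for `k ≤ p` (`0` for `k + 1 < j`). -/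
def YMB_stmt : Prop := ∀ (p : ℕ) (Q κ v u : ℕ → ℂ) (D : ℝ) (Φ : ℕ → ℕ → ℂ), GooH p Φ →
  (∀ n, cv κ Q n = dl n) → (∀ n, cv u v n = dl n) → DatH v (cv u κ) D →
  ∀ (j : ℕ) (c : ℕ → ℂ), 1 ≤ j → j ≤ p + 1 →
    (∀ r, 1 ≤ r → r ≤ p + 1 → cv Q (cmb (p + 1) (psk v Φ) c) r = if r = j then (j : ℂ) else 0) →
    ∀ n, p + 1 < n → ‖cmb (p + 1) (psk v Φ) c n‖ ≤ j * BB (p + 1) n j

/-! ## Block E: functions -/

/-- `G` is an odd starlike function. -/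
structure OddStarl (G : ℂ → ℂ) : Prop where
  starl : Starl G
  odd : ∀ z ∈ ball (0 : ℂ) 1, G (-z) = -G z

/-- (medium) `h_XG1` gives `β'`, `Approx β'`, `coeff G (n+1) = G'(0) a_n`, `a = ex 2 β'`. `coeff G` vanishes at even indices (`G` odd; `CO1`,
`CO2` for `z ↦ G(-z)`), so `a_n = 0` for odd `n`, and by the recursion (`ex_rec`) and strong induction `β'_n = 0` for odd `n`. Put
`β k = β' (2k)`: `2k a_{2k} = 2 ∑_{l<k} β_{k-l} a_{2l}`, so `a_{2k} = ex 1 β k` (`ex_uni`). `Approx β`: squares of the points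
(`mom w x (2k) = mom w (x²) k`). -/
def YG1_stmt : Prop := ∀ G : ℂ → ℂ, OddStarl G → ∃ β : ℕ → ℂ, Approx β ∧
  ∀ k : ℕ, N2b689f5b.coeff G (2 * k) = 0 ∧ N2b689f5b.coeff G (2 * k + 1) = deriv G 0 * ex 1 β k

/-- (short-medium) `h_XG2` gives `q'`, `κ'`. `Q` even: `q'_n = 0` for odd `n` (`Q 0 ≠ 0`), and `κ'_n = 0` for odd `n` (strong induction in
`cv κ' q' n = dl n`). Put `q k = q' (2k)`, `κ k = κ' (2k)`: `Cara` again (squares of the points, as in `YG1`), and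
`cv κ q k = cv κ' q' (2k)` (the odd terms vanish). -/
def YG2_stmt : Prop := ∀ Q : ℂ → ℂ, DifferentiableOn ℂ Q (ball 0 1) → (∀ z ∈ ball (0 : ℂ) 1, 0 < (Q z).re) →
  (∀ z ∈ ball (0 : ℂ) 1, Q (-z) = Q z) →
  ∃ q κ : ℕ → ℂ, Cara q ∧ Cara κ ∧
    (∀ k : ℕ, N2b689f5b.coeff Q (2 * k) = Q 0 * q k ∧ N2b689f5b.coeff Q (2 * k + 1) = 0) ∧ ∀ n, cv κ q n = dl n

/-- Order `p`: even functions. -/
def InvE (p : ℕ) (f : ℂ → ℂ) : Prop := DifferentiableOn ℂ f (ball 0 1) ∧ (∀ k : ℕ, N2b689f5b.coeff f (2 * k + 1) = 0) ∧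
  ∃ (Φ : ℕ → ℕ → ℂ) (c : ℕ → ℂ), Goo p Φ ∧ ∀ k : ℕ, 1 ≤ k → N2b689f5b.coeff f (2 * k) = cmb p Φ c k

/-- Order `p + 1/2`: odd functions. -/
def InvO (p : ℕ) (f : ℂ → ℂ) : Prop := DifferentiableOn ℂ f (ball 0 1) ∧ (∀ k : ℕ, N2b689f5b.coeff f (2 * k) = 0) ∧
  ∃ (Φ : ℕ → ℕ → ℂ) (c : ℕ → ℂ), GooH p Φ ∧ ∀ k : ℕ, N2b689f5b.coeff f (2 * k + 1) = cmbh p Φ c k

/-- (medium) From `YHD`, `YM2`, `YMA`, `YPA`, `YG1`, `YG2`, as `XST` (`Pool/Agent/helper23/GF/XST.lean`). `v = ex 1 β`, `u = ex (-1) β`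
(`h_XEM`). The coefficients of `h` at `2r` are `∑_{m≤p} c_m one0 Φ m r` (`c_0 = coeff h 0`), those of `G h` at `2k+1` are
`G'(0) (cv v ..)_k = G'(0) cmbh p (psh v Φ) c k`, at even indices `0`; `z f' = Q (G h)`:
`(2k+1) coeff f (2k+1) = Q(0) G'(0) (cv q (cmbh ..))_k`, and `2k coeff f (2k) = 0` (`coeff f 0 = f 0 = 0`). -/
def YSE_stmt : Prop := ∀ (p : ℕ) (G h f Q : ℂ → ℂ), OddStarl G → InvE p h → DifferentiableOn ℂ f (ball 0 1) → f 0 = 0 →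
  DifferentiableOn ℂ Q (ball 0 1) → (∀ z ∈ ball (0 : ℂ) 1, 0 < (Q z).re) → (∀ z ∈ ball (0 : ℂ) 1, Q (-z) = Q z) →
  (∀ z ∈ ball (0 : ℂ) 1, z * deriv f z = Q z * (G z * h z)) → InvO p f

/-- (medium) From `YHD`, `YMB`, `YPB`, `YG1`, `YG2` and `h_XM2`, as `YSE`. The coefficients of `G h` at `2k` are
`G'(0) gs v h' k`, `h'_k = coeff h (2k+1) = cmbh p Φ c k`; `2k coeff f (2k) = Q(0) G'(0) (cv q (gs v h'))_k`, i.e.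
`k coeff f (2k) = (cv q (cmb (p+1) (psk v Φ) c'))_k` with `c' (m+1) = Q(0) G'(0) c_m / 2`. -/
def YSO_stmt : Prop := ∀ (p : ℕ) (G h f Q : ℂ → ℂ), OddStarl G → InvO p h → DifferentiableOn ℂ f (ball 0 1) →
  DifferentiableOn ℂ Q (ball 0 1) → (∀ z ∈ ball (0 : ℂ) 1, 0 < (Q z).re) → (∀ z ∈ ball (0 : ℂ) 1, Q (-z) = Q z) →
  (∀ z ∈ ball (0 : ℂ) 1, z * deriv f z = Q z * (G z * h z)) → InvE (p + 1) f

/-- (short-medium) `f̃(z) = f(z²)`: `coeff f̃ (2k) = coeff f k` (`CO1`, `CO2`: `f(z²) = ∑ coeff f k z^{2k}`; a sum over the even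
indices), so `InvE p f̃` gives Goodman's inequality for `f`. -/
def YGO_stmt : Prop := ∀ (p : ℕ) (f : ℂ → ℂ), DifferentiableOn ℂ f (ball 0 1) → InvE p (fun z => f (z ^ 2)) →
  ∀ n : ℕ, p < n → ‖N2b689f5b.coeff f n‖ ≤ N2b689f5b.goodmanBound f p n

end Pool.Agent.GD
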