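import Pool.Agent.helper65.GD.SpecF

set_option autoImplicit false

namespace Pool.Agent.GD

open Finset

/-- `β` without the constant term. -/
noncomputable def XEM_B (β : ℕ → ℂ) (m : ℕ) : ℂ := if m = 0 then 0 else β m

lemma XEM_sum (β a : ℕ → ℂ) (k : ℕ) : ∑ m ∈ range k, β (k - m) * a m = cv (XEM_B β) a k := by
  unfold cv
  rw [Finset.sum_range_succ, Nat.sub_self]
  have e0 : XEM_B β 0 = 0 := by simp [XEM_B]
  rw [e0, zero_mul, add_zero]
  refine Finset.sum_congr rfl fun m hm => ?_
  have := mem_range.1 hm
  rw [XEM_B, if_neg (by omega)]

lemma XEM_ex (s : ℂ) (β : ℕ → ℂ) (k : ℕ) : (k : ℂ) * ex s β k = s * cv (XEM_B β) (ex s β) k := by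
  rw [← XEM_sum]
  exact (ex_rec s β).2 k

theorem XEM : XEM_stmt := by
  refine ⟨?_, ?_⟩
  · intro s t β n
    have h : Rec (s + t) β (cv (ex s β) (ex t β)) := by
      refine ⟨?_, ?_⟩
      · unfold cv
        simp [ex_zero]
      · intro k
        rw [XEM_sum]
        have e1 : (k : ℂ) * cv (ex s β) (ex t β) k =
            cv (fun m => (m : ℂ) * ex s β m) (ex t β) k + cv (ex s β) (fun m => (m : ℂ) * ex t β m) k := by
          unfold cv
          rw [Finset.mul_sum, ← Finset.sum_add_distrib]
          refine Finset.sum_congr rfl fun r hr => ?_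
          have hr' := mem_range.1 hr
          have : (k : ℂ) = ((k - r : ℕ) : ℂ) + r := by
            rw [← Nat.cast_add]
            congr 1
            omega
          rw [this]
          ring
        have e2 : (fun m : ℕ => (m : ℂ) * ex s β m) = fun m => s * cv (XEM_B β) (ex s β) m := by
          funext m
          exact XEM_ex s β m
        have e3 : (fun m : ℕ => (m : ℂ) * ex t β m) = fun m => t * cv (XEM_B β) (ex t β) m := by
          funext m
          exact XEM_ex t β m
        have e4 : cv (fun m => s * cv (XEM_B β) (ex s β) m) (ex t β) k =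
            s * cv (cv (XEM_B β) (ex s β)) (ex t β) k := by
          unfold cv
          rw [Finset.mul_sum]
          refine Finset.sum_congr rfl fun r _ => by ring
        have e5 : cv (ex s β) (fun m => t * cv (XEM_B β) (ex t β) m) k =
            t * cv (ex s β) (cv (XEM_B β) (ex t β)) k := by
          unfold cv
          rw [Finset.mul_sum]
          refine Finset.sum_congr rfl fun r _ => by ring
        have e6 : cv (ex s β) (cv (XEM_B β) (ex t β)) k = cv (XEM_B β) (cv (ex s β) (ex t β)) k := by
          rw [← cv_assoc, ← cv_assoc]
          have : cv (ex s β) (XEM_B β) = cv (XEM_B β) (ex s β) := by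
            funext m
            exact cv_comm _ _ m
          rw [this]
        rw [e1, e2, e3, e4, e5, e6, cv_assoc]
        ring
    have h2 := ex_uni _ _ _ h
    exact congrFun h2 n
  · intro β n
    have h : Rec 0 β dl := by
      refine ⟨by simp [dl], ?_⟩
      intro k
      rcases Nat.eq_zero_or_pos k with h | h
      · subst h
        simp
      · have : dl k = 0 := by
          unfold dl
          rw [if_neg (by omega)]
        rw [this]
        ring
    exact (congrFun (ex_uni _ _ _ h) n).symm

end Pool.Agent.GD
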